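import Mathlib

/-!
# MP_96ce97_co: products of difference sets need not contain a subring of bounded index

In the ring `𝔽₂ⁿ` with coordinatewise operations let `E` be the set of vectors with fewer than
`n / 2 - t` nonzero coordinates.  Every element of `(E - E) * (E - E)` has at most `n - 2 t - 2`
nonzero coordinates, while a subring of index at most `k` contains an element with at least
`n - log₂ k` nonzero coordinates.
-/

set_option autoImplicit false

open Pointwise Finset

namespace Pool.Agent.Results.MP_96ce97_co.NoLargeSubring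

/-- the support of a vector -/
def supp {n : ℕ} (x : Fin n → ZMod 2) : Finset (Fin n) := univ.filter (fun i => x i ≠ 0)

lemma mem_supp {n : ℕ} (x : Fin n → ZMod 2) (i : Fin n) : i ∈ supp x ↔ x i ≠ 0 := by
  simp [supp]

/-- vectors and finite sets of coordinates -/
def equivSupp (n : ℕ) : (Fin n → ZMod 2) ≃ Finset (Fin n) where
  toFun := supp
  invFun s := fun i => if i ∈ s then 1 else 0
  left_inv x := by
    ext i
    simp only [mem_supp]
    by_cases h : x i = 0
    · simp [h]
    · have h1 : x i = 1 := by
        have : ∀ a : ZMod 2, a ≠ 0 → a = 1 := by decide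
        exact this _ h
      simp [h1]
  right_inv s := by
    ext i
    simp [mem_supp]

lemma centralBinom_sq (m : ℕ) : (2 * m + 1) * (Nat.centralBinom m) ^ 2 ≤ 16 ^ m := by
  induction m with
  | zero => simp
  | succ m ih =>
    have h := Nat.succ_mul_centralBinom_succ m
    have h1 : (m + 1) ^ 2 * ((2 * (m + 1) + 1) * (Nat.centralBinom (m + 1)) ^ 2) ≤
        (m + 1) ^ 2 * 16 ^ (m + 1) := by
      calc (m + 1) ^ 2 * ((2 * (m + 1) + 1) * (Nat.centralBinom (m + 1)) ^ 2)
          = (2 * m + 3) * ((m + 1) * Nat.centralBinom (m + 1)) ^ 2 := by ring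
        _ = (2 * m + 3) * (2 * (2 * m + 1) * Nat.centralBinom m) ^ 2 := by rw [h]
        _ = 4 * (2 * m + 3) * (2 * m + 1) * ((2 * m + 1) * (Nat.centralBinom m) ^ 2) := by ring
        _ ≤ 4 * (2 * m + 3) * (2 * m + 1) * 16 ^ m := Nat.mul_le_mul_left _ ih
        _ ≤ (16 * (m + 1) ^ 2) * 16 ^ m := by
            apply Nat.mul_le_mul_right
            nlinarith
        _ = (m + 1) ^ 2 * 16 ^ (m + 1) := by ring
    exact Nat.le_of_mul_le_mul_left h1 (by positivity)

/-- For every `α < 1/2` and every `t` there are arbitrarily large `m` such that at least an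
`α`-proportion of the subsets of a `2 m`-element set have fewer than `m - t` elements. -/
lemma many_small (α : ℝ) (hα : α < 1 / 2) (t N : ℕ) : ∃ m, N ≤ m ∧ t < m ∧
    α * 2 ^ (2 * m) ≤ ((univ.filter (fun s : Finset (Fin (2 * m)) => s.card + t < m)).card : ℝ) := by
  obtain ⟨δ, hδ, hαδ⟩ : ∃ δ : ℝ, 0 < δ ∧ α + δ ≤ 1 / 2 := ⟨1 / 2 - α, by linarith, by linarith⟩
  -- choose m large
  obtain ⟨m, hm⟩ := exists_nat_gt ((((2 * t + 1 : ℕ) : ℝ) / δ) ^ 2 + N + t + 1)
  have hq : 0 ≤ (((2 * t + 1 : ℕ) : ℝ) / δ) ^ 2 := by positivity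
  have hN : N ≤ m := by
    have : (N : ℝ) < m := by
      have : (0 : ℝ) ≤ t := Nat.cast_nonneg _
      linarith
    exact_mod_cast this.le
  have ht : t < m := by
    have : (t : ℝ) < m := by
      have : (0 : ℝ) ≤ N := Nat.cast_nonneg _
      linarith
    exact_mod_cast this
  refine ⟨m, hN, ht, ?_⟩
  set P : Finset (Finset (Fin (2 * m))) := univ.filter (fun s => s.card + t < m) with hP
  set M : Finset (Finset (Fin (2 * m))) :=
    univ.filter (fun s => m ≤ s.card + t ∧ s.card ≤ m + t) with hM
  set L : Finset (Finset (Fin (2 * m))) := univ.filter (fun s => m + t < s.card) with hL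
  have hPL : P.card = L.card := by
    apply Finset.card_bij (fun s _ => sᶜ)
    · intro s hs
      simp only [hP, hL, mem_filter, mem_univ, true_and] at hs ⊢
      rw [card_compl, Fintype.card_fin]
      omega
    · intro s _ s' _ h
      exact compl_injective h
    · intro s hs
      refine ⟨sᶜ, ?_, by simp⟩
      simp only [hP, hL, mem_filter, mem_univ, true_and] at hs ⊢
      rw [card_compl, Fintype.card_fin]
      have := card_le_univ s
      rw [Fintype.card_fin] at this
      omega
  have htot : P.card + M.card + L.card = 2 ^ (2 * m) := by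
    have h1 : (univ : Finset (Finset (Fin (2 * m)))) = (P ∪ M) ∪ L := by
      ext s
      simp only [hP, hM, hL, mem_union, mem_filter, mem_univ, true_and, true_iff]
      omega
    have h2 : (univ : Finset (Finset (Fin (2 * m)))).card = 2 ^ (2 * m) := by
      rw [card_univ, Fintype.card_finset, Fintype.card_fin]
    rw [← h2, h1, card_union_of_disjoint, card_union_of_disjoint]
    · rw [Finset.disjoint_left]
      intro s hs hs'
      simp only [hP, hM, mem_filter, mem_univ, true_and] at hs hs'
      omega
    · rw [Finset.disjoint_left]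
      intro s hs hs'
      simp only [hP, hM, hL, mem_union, mem_filter, mem_univ, true_and] at hs hs'
      omega
  have hMcard : M.card ≤ (2 * t + 1) * Nat.centralBinom m := by
    have h1 : M ⊆ (Finset.range (2 * t + 1)).biUnion
        (fun j => powersetCard (m - t + j) (univ : Finset (Fin (2 * m)))) := by
      intro s hs
      simp only [hM, mem_filter, mem_univ, true_and] at hs
      rw [mem_biUnion]
      refine ⟨s.card + t - m, ?_, ?_⟩
      · rw [mem_range]; omega
      · rw [mem_powersetCard]
        exact ⟨subset_univ _, by omega⟩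
    calc M.card ≤ _ := card_le_card h1
      _ ≤ ∑ j ∈ Finset.range (2 * t + 1),
          (powersetCard (m - t + j) (univ : Finset (Fin (2 * m)))).card := card_biUnion_le
      _ ≤ ∑ j ∈ Finset.range (2 * t + 1), Nat.centralBinom m := by
          apply Finset.sum_le_sum
          intro j _
          rw [card_powersetCard, card_univ, Fintype.card_fin]
          exact Nat.choose_le_centralBinom _ _
      _ = (2 * t + 1) * Nat.centralBinom m := by simp
  -- the middle layers are negligible
  have hcb : ((2 * t + 1 : ℕ) : ℝ) * (Nat.centralBinom m : ℝ) ≤ δ * 2 ^ (2 * m) := by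
    have h1 : ((Nat.centralBinom m : ℝ)) ^ 2 * m ≤ (2 ^ (2 * m)) ^ 2 := by
      have := centralBinom_sq m
      have h2 : (((2 * m + 1) * (Nat.centralBinom m) ^ 2 : ℕ) : ℝ) ≤ ((16 ^ m : ℕ) : ℝ) := by
        exact_mod_cast this
      push_cast at h2
      have h3 : ((2 : ℝ) ^ (2 * m)) ^ 2 = 16 ^ m := by
        rw [← pow_mul, mul_comm 2 m, mul_assoc, mul_comm m, pow_mul]
        norm_num
      rw [h3]
      refine le_trans ?_ h2
      have : (0 : ℝ) ≤ (Nat.centralBinom m : ℝ) ^ 2 := by positivity
      have hm0 : (0 : ℝ) ≤ m := Nat.cast_nonneg _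
      nlinarith
    have h4 : (((2 * t + 1 : ℕ) : ℝ) / δ) ^ 2 ≤ m := by
      have : (0 : ℝ) ≤ N := Nat.cast_nonneg _
      have : (0 : ℝ) ≤ t := Nat.cast_nonneg _
      linarith
    have h5 : (((2 * t + 1 : ℕ) : ℝ) / δ * (Nat.centralBinom m : ℝ)) ^ 2 ≤ (2 ^ (2 * m)) ^ 2 := by
      refine le_trans ?_ h1
      rw [mul_pow, mul_comm]
      exact mul_le_mul_of_nonneg_left h4 (by positivity)
    have h6 := (pow_le_pow_iff_left₀ (by positivity) (by positivity) (by norm_num)).1 h5
    rw [div_mul_eq_mul_div, div_le_iff₀ hδ] at h6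
    linarith
  have h7 : (M.card : ℝ) ≤ δ * 2 ^ (2 * m) := by
    refine le_trans ?_ hcb
    exact_mod_cast hMcard
  have h8 : (P.card : ℝ) + M.card + L.card = 2 ^ (2 * m) := by exact_mod_cast htot
  have h9 : (P.card : ℝ) = L.card := by exact_mod_cast hPL
  have h10 : (0 : ℝ) < 2 ^ (2 * m) := by positivity
  nlinarith

/-- **Products of difference sets in finite commutative rings.**  For every `α < 1/2` and all
`N`, `k` there are a finite commutative ring `R` with at least `N` elements and a set `E ⊆ R` with
`|E| ≥ α |R|` such that no subring (not necessarily containing `1`) of `R` of index at most `k` is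
contained in `(E - E) * (E - E)`. -/
theorem result (α : ℝ) (hα : α < 1 / 2) (N k : ℕ) :
    ∃ (R : Type) (_ : CommRing R) (_ : Finite R) (E : Set R),
      N ≤ Nat.card R ∧ α * Nat.card R ≤ Nat.card E ∧
      ∀ R₀ : NonUnitalSubring R, (R₀ : Set R) ⊆ (E - E) * (E - E) →
        k < R₀.toAddSubgroup.index := by
  obtain ⟨m, hNm, htm, hcard⟩ := many_small α hα k N
  refine ⟨Fin (2 * m) → ZMod 2, inferInstance, inferInstance,
    {x | (supp x).card + k < m}, ?_, ?_, ?_⟩
  · rw [Nat.card_eq_fintype_card, Fintype.card_fun, ZMod.card, Fintype.card_fin]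
    have := Nat.lt_two_pow_self (n := 2 * m)
    omega
  · have h1 : Nat.card {x : Fin (2 * m) → ZMod 2 | (supp x).card + k < m} =
        (univ.filter (fun s : Finset (Fin (2 * m)) => s.card + k < m)).card := by
      have e : {x : Fin (2 * m) → ZMod 2 | (supp x).card + k < m} ≃
          {s : Finset (Fin (2 * m)) // s.card + k < m} :=
        (equivSupp (2 * m)).subtypeEquiv (fun x => Iff.rfl)
      rw [Nat.card_congr e, Nat.card_eq_fintype_card, Fintype.card_subtype]
    rw [h1, Nat.card_eq_fintype_card, Fintype.card_fun, ZMod.card, Fintype.card_fin]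
    push_cast
    exact hcard
  · intro R₀ hR₀
    by_contra hk
    push Not at hk
    have hsmall : ∀ z ∈ R₀, (supp z).card + (2 * k + 2) ≤ 2 * m := by
      intro z hz
      obtain ⟨u, hu, w, -, rfl⟩ := Set.mem_mul.1 (hR₀ hz)
      obtain ⟨a, ha, b, hb, rfl⟩ := Set.mem_sub.1 hu
      have h1 : supp ((a - b) * w) ⊆ supp a ∪ supp b := by
        intro i hi
        rw [mem_supp, Pi.mul_apply, Pi.sub_apply] at hi
        rw [mem_union, mem_supp, mem_supp]
        by_contra hcon
        push Not at hcon
        rw [hcon.1, hcon.2] at hi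
        simp at hi
      have h2 := card_le_card h1
      have h3 := card_union_le (supp a) (supp b)
      have ha' : (supp a).card + k < m := ha
      have hb' : (supp b).card + k < m := hb
      omega
    obtain ⟨e, he, hmax⟩ := Set.exists_max_image (R₀ : Set (Fin (2 * m) → ZMod 2))
      (fun x => (supp x).card) (Set.toFinite _) ⟨0, R₀.zero_mem⟩
    have hle : ∀ x ∈ R₀, supp x ⊆ supp e := by
      intro x hx
      have hy : e + x - e * x ∈ R₀ := R₀.sub_mem (R₀.add_mem he hx) (R₀.mul_mem he hx)
      have h1 : supp (e + x - e * x) = supp e ∪ supp x := by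
        ext i
        rw [mem_union, mem_supp, mem_supp, mem_supp, Pi.sub_apply, Pi.add_apply, Pi.mul_apply]
        have : ∀ a b : ZMod 2, a + b - a * b ≠ 0 ↔ (a ≠ 0 ∨ b ≠ 0) := by decide
        exact this _ _
      have h2 := hmax _ hy
      simp only [h1] at h2
      have h3 : supp e = supp e ∪ supp x := eq_of_subset_of_card_le subset_union_left h2
      rw [h3]
      exact subset_union_right
    have hcardR : Nat.card R₀ ≤ 2 ^ (supp e).card := by
      rw [← card_powerset]
      have : Nat.card (supp e).powerset = (supp e).powerset.card := by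
        rw [Nat.card_eq_fintype_card, Fintype.card_coe]
      rw [← this]
      apply Nat.card_le_card_of_injective
        (fun x : R₀ => (⟨supp (x : Fin (2 * m) → ZMod 2), mem_powerset.2 (hle _ x.2)⟩ :
          (supp e).powerset))
      intro x y hxy
      simp only [Subtype.mk.injEq] at hxy
      exact Subtype.ext ((equivSupp (2 * m)).injective hxy)
    have hindex := R₀.toAddSubgroup.card_mul_index
    have hcR : Nat.card (Fin (2 * m) → ZMod 2) = 2 ^ (2 * m) := by
      rw [Nat.card_eq_fintype_card, Fintype.card_fun, ZMod.card, Fintype.card_fin]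
    rw [hcR] at hindex
    have he2 := hsmall e he
    have h1 : 2 ^ (2 * m) ≤ 2 ^ (supp e).card * k := by
      rw [← hindex]
      exact Nat.mul_le_mul hcardR hk
    have h2 : 2 ^ (supp e).card * k < 2 ^ (supp e).card * 2 ^ k :=
      Nat.mul_lt_mul_of_pos_left Nat.lt_two_pow_self (by positivity)
    have h3 : 2 ^ (supp e).card * 2 ^ k ≤ 2 ^ (2 * m) := by
      rw [← pow_add]
      exact Nat.pow_le_pow_right (by norm_num) (by omega)
    omega

end Pool.Agent.Results.MP_96ce97_co.NoLargeSubring
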